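import Pool.Agent.Helper27.T5.Sch
import Pool.Agent.Helper36.T4.Size

/-!
# T5a, block J0: the numbers of the label level

Two used states `l' < l` of one era, `G = fam (era l)` the family which grows, `R` another family
(the fresh family).  With `D = l - l'`, `s = ef m 1 l - l`, `s' = ef m 1 l' - l'`:
the products over the families which occur in helper3's block J0 are powers of `pr G`.
-/

set_option autoImplicit false

namespace Pool.Agent.Helper36.T5

open Finset Pool.Agent.Helper5.ET Pool.Agent.Helper27.T4 Pool.Agent.Helper27.T5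

theorem pr_ge (f : Fin 3) : 1000003 ≤ pr f := by
  fin_cases f <;> simp [pr]

theorem pr_le (f : Fin 3) : pr f ≤ 1000037 := by
  fin_cases f <;> simp [pr]

/-- the decoding constant -/
theorem C_le : (∏ i : Fin 3, (2 * (pr i - 1))) ≤ 10 ^ 19 := by
  simp [Fin.prod_univ_three, pr]

theorem C_pos : 0 < (∏ i : Fin 3, (2 * (pr i - 1))) := by
  simp [Fin.prod_univ_three, pr]

/-- exponents inside one era -/
theorem av_same {l l' : ℕ} (h : l' ≤ l) (he : era l' = era l) (f : Fin 3) :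
    av l f = if f = fam (era l) then av l' f + (l - l') else av l' f := cnt_same_era h he f

theorem av_of_ne {l l' : ℕ} (h : l' ≤ l) (he : era l' = era l) {f : Fin 3}
    (hf : f ≠ fam (era l)) : av l f = av l' f := by
  rw [av_same h he, if_neg hf]

theorem av_fam {l l' : ℕ} (h : l' ≤ l) (he : era l' = era l) :
    av l (fam (era l)) = av l' (fam (era l)) + (l - l') := by
  rw [av_same h he, if_pos rfl]

/-- the exponent of a family other than the growing one is zero -/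
theorem exp_zero {l l' t : ℕ} (h : l' ≤ l) (he : era l' = era l) (ht : l' ≤ t)
    (het : era l' = era t) {f : Fin 3} (hf : f ≠ fam (era l)) :
    (av l f + av l' f - 2 * av t f) / 2 = 0 := by
  have h1 := av_of_ne h he hf
  have h2 := av_of_ne ht het (f := f) (by rw [← het, he]; exact hf)
  omega

theorem exp_fam {l l' t : ℕ} (h : l' ≤ l) (he : era l' = era l) (ht : l' ≤ t)
    (het : era l' = era t) :
    (av l (fam (era l)) + av l' (fam (era l)) - 2 * av t (fam (era l))) / 2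
      = ((l - l') - 2 * (t - l')) / 2 := by
  have h1 := av_fam h he
  have h2 := av_fam ht het
  rw [← het, he] at h2
  omega

/-- **the label products**: for every position `t` of the era above `l'` -/
theorem prod_av {l l' t : ℕ} (h : l' ≤ l) (he : era l' = era l) (ht : l' ≤ t)
    (het : era l' = era t) :
    (∏ i : Fin 3, pr i ^ ((av l i + av l' i - 2 * av t i) / 2))
      = pr (fam (era l)) ^ (((l - l') - 2 * (t - l')) / 2) := by
  rw [Finset.prod_eq_single (fam (era l))]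
  · rw [exp_fam h he ht het]
  · intro i _ hi
    rw [exp_zero h he ht het hi, pow_zero]
  · intro hn
    exact absurd (mem_univ _) hn

theorem prod_av_erase {l l' t : ℕ} (h : l' ≤ l) (he : era l' = era l) (ht : l' ≤ t)
    (het : era l' = era t) {R : Fin 3} (hR : R ≠ fam (era l)) :
    (∏ i ∈ univ.erase R, pr i ^ ((av l i + av l' i - 2 * av t i) / 2))
      = pr (fam (era l)) ^ (((l - l') - 2 * (t - l')) / 2) := by
  rw [← prod_av h he ht het, ← Finset.mul_prod_erase univ _ (mem_univ R),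
    exp_zero h he ht het hR, pow_zero, one_mul]

/-- the number of labels: `b = av l'` -/
theorem prod_av_self {l l' : ℕ} (h : l' ≤ l) (he : era l' = era l) :
    (∏ i : Fin 3, pr i ^ ((av l i + av l' i - 2 * av l' i) / 2))
      = pr (fam (era l)) ^ ((l - l') / 2) := by
  rw [prod_av h he le_rfl rfl]
  simp

section Front

variable {m l l' : ℕ}

theorem era_ef' {i : ℕ} (h : used m l') (hb : 10 * m ≤ la (era l')) (h1 : 1 ≤ i) (hi : i < m) :
    era l' = era (ef m i l') := (era_ef h hb h1 hi).symm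

/-- the class numbers: `b = av (ef m i l')` -/
theorem prod_av_ef {i : ℕ} (h' : used m l') (hb : 10 * m ≤ la (era l'))
    (h : l' ≤ l) (he : era l' = era l) (h1 : 1 ≤ i) (hi : i < m) :
    (∏ f : Fin 3, pr f ^ ((av l f + av l' f - 2 * av (ef m i l') f) / 2))
      = pr (fam (era l)) ^ (((l - l') - 2 * (ef m i l' - l')) / 2) :=
  prod_av h he (lt_ef hb hi).le (era_ef' h' hb h1 hi)

/-- `Lam` of the label level -/
theorem Lam_eq (h' : used m l') (hb : 10 * m ≤ la (era l')) (hm : 1 < m)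
    (h : l' ≤ l) (he : era l' = era l) {R : Fin 3} (hR : R ≠ fam (era l)) :
    (∏ i ∈ univ.erase R, pr i ^ ((av l i + av l' i - 2 * av (ef m 1 l') i) / 2))
      = pr (fam (era l)) ^ (((l - l') - 2 * (ef m 1 l' - l')) / 2) :=
  prod_av_erase h he (lt_ef hb hm).le (era_ef' h' hb le_rfl hm) hR

/-- the codes of the two states: `Ne = Ne' * pr G ^ (e - e')` -/
theorem Ne_eq (h0 : used m l) (h' : used m l') (hb : 10 * m ≤ la (era l)) (hm : 1 < m)
    (h : l' ≤ l) (he : era l' = era l) :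
    Nj (ef m 1 l) = Nj (ef m 1 l') * pr (fam (era l)) ^ (ef m 1 l - ef m 1 l') := by
  have h1 := ef_mono m 1 h he
  have e1 := era_ef h0 hb le_rfl hm
  have e2 := era_ef h' (by rw [he]; exact hb) le_rfl hm
  have h2 := Nj_era h1 (by rw [e1, e2, he])
  rw [e1] at h2
  exact h2

theorem ef_sub_ef (hb : 10 * m ≤ la (era l)) (hm : 1 < m) (h : l' ≤ l) (he : era l' = era l) :
    ef m 1 l - ef m 1 l' + (ef m 1 l' - l') = (l - l') + (ef m 1 l - l) := by
  have h1 := ef_mono m 1 h he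
  have h2 := lt_ef hb hm
  have h3 := lt_ef (l := l') (by rw [he]; exact hb) hm
  omega

theorem ratio_eq (h0 : used m l) (h' : used m l') (hb : 10 * m ≤ la (era l)) (hm : 1 < m)
    (h : l' ≤ l) (he : era l' = era l) :
    (Nj (ef m 1 l') : ℝ) / Nj (ef m 1 l)
      = ((pr (fam (era l)) : ℝ) ^ (ef m 1 l - ef m 1 l'))⁻¹ := by
  rw [Ne_eq h0 h' hb hm h he]
  have h1 : (Nj (ef m 1 l') : ℝ) ≠ 0 := by
    exact_mod_cast (NN_pos pr_prime _).ne'
  push_cast
  field_simp

end Front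

/-! ## the fresh family -/

theorem fam_add_two_ne (j : ℕ) : fam (j + 2) ≠ fam j := by
  intro h
  rw [fam_eq_iff] at h
  omega

theorem fam_add_two_ne' (j : ℕ) : fam (j + 2) ≠ fam (j + 1) := by
  intro h
  rw [fam_eq_iff] at h
  omega

/-- the family `era l + 2` contains at least `9 / 20` of the border -/
theorem fresh_size : ∃ j0, ∀ l, j0 ≤ era l → bb 0 ≤ l →
    9 * bb (era l) ≤ 20 * av l (fam (era l + 2)) := by
  obtain ⟨k0, h0⟩ := Pool.Agent.Helper36.T4.size_pos (1 / 100) (by norm_num)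
  refine ⟨k0, fun l hl hl0 => ?_⟩
  obtain ⟨h1, h2⟩ := era_spec l hl0
  have h3 := (h0 (era l) hl l h1 h2.le).2.2
  have h4 : (cnt (fam (era l + 2)) l : ℝ) = (av l (fam (era l + 2)) : ℝ) := rfl
  have h5 : Pool.Agent.Helper36.T4.fk (era l + 2) = fam (era l + 2) := rfl
  rw [h5, h4, abs_le] at h3
  have hb : (0 : ℝ) ≤ bb (era l) := Nat.cast_nonneg _
  have h6 : (9 : ℝ) * bb (era l) ≤ 20 * av l (fam (era l + 2)) := by linarith [h3.1]
  exact_mod_cast h6

theorem W_one_le {m j : ℕ} (hb : 10 * m ≤ la j) (hm : 1 < m) : 1024 * W m j 1 ≤ bb j := by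
  have h1 := W_zero_le m j
  rw [W_succ (show 0 < m by omega), zero_add] at h1
  have h2 := Nat.mul_le_mul_right (W m j 1) (rt_ge hb (show 0 < m by omega))
  omega

section Rho

variable {m l l' : ℕ}

/-- the fresh modulus is larger than the jump of the code -/
theorem jump_le_fresh : ∃ j0, ∀ m l l', 1 < m → j0 ≤ era l → 10 * m ≤ la (era l) → used m l →
    used m l' → l' ≤ l → era l' = era l → l - l' ≤ 200 * W m (era l) 1 →
    pr (fam (era l)) ^ (ef m 1 l - ef m 1 l') ≤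
      pr (fam (era l + 2)) ^ av l (fam (era l + 2)) := by
  obtain ⟨j0, h0⟩ := fresh_size
  refine ⟨j0, fun m l l' hm hj hb hu hu' h he hD => ?_⟩
  have h1 := h0 l hj (used_bb_zero hu)
  have h2 := W_one_le hb hm
  have h3 := ef_sub_ef hb hm h he
  have h4 := ef_sub_le hb hm
  have h5 := lt_ef (l := l') (by rw [he]; exact hb) hm
  have h6 := ef_mono m 1 h he
  have h7 : 2 * (ef m 1 l - ef m 1 l') ≤ av l (fam (era l + 2)) := by omega
  calc pr (fam (era l)) ^ (ef m 1 l - ef m 1 l')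
      ≤ (pr (fam (era l + 2)) ^ 2) ^ (ef m 1 l - ef m 1 l') := by
        apply Nat.pow_le_pow_left
        have e1 := pr_le (fam (era l))
        have e2 := pr_ge (fam (era l + 2))
        nlinarith
    _ = pr (fam (era l + 2)) ^ (2 * (ef m 1 l - ef m 1 l')) := by rw [pow_mul]
    _ ≤ _ := Nat.pow_le_pow_right (by have := pr_ge (fam (era l + 2)); omega) h7

/-- the price of a label in powers of the prime -/
theorem rho_pow : ∃ j0, ∀ m l l', 1 < m → j0 ≤ era l → 10 * m ≤ la (era l) → used m l →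
    used m l' → l' ≤ l → era l' = era l → l - l' ≤ 200 * W m (era l) 1 →
    ((∏ i : Fin 3, (2 * (pr i - 1)) : ℕ) : ℝ) *
      ((∏ i ∈ univ.erase (fam (era l + 2)),
          pr i ^ ((av l i + av l' i - 2 * av (ef m 1 l') i) / 2) : ℕ) : ℝ) *
      ((Nj (ef m 1 l') : ℝ) / Nj (ef m 1 l) +
        1 / ((pr (fam (era l + 2)) ^ av l (fam (era l + 2)) : ℕ) : ℝ)) ≤
      2 * 10 ^ 19 * (pr (fam (era l)) : ℝ) ^ (((l - l') - 2 * (ef m 1 l' - l')) / 2) *
        ((pr (fam (era l)) : ℝ) ^ (ef m 1 l - ef m 1 l'))⁻¹ := by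
  obtain ⟨j0, h0⟩ := jump_le_fresh
  refine ⟨j0, fun m l l' hm hj hb hu hu' h he hD => ?_⟩
  have h1 := h0 m l l' hm hj hb hu hu' h he hD
  have hb' : 10 * m ≤ la (era l') := by rw [he]; exact hb
  rw [Lam_eq hu' hb' hm h he (fam_add_two_ne _), ratio_eq hu hu' hb hm h he]
  have hp : (0 : ℝ) < (pr (fam (era l)) : ℝ) := by
    have := pr_ge (fam (era l))
    exact_mod_cast (by omega : 0 < pr (fam (era l)))
  have h2 : 1 / ((pr (fam (era l + 2)) ^ av l (fam (era l + 2)) : ℕ) : ℝ)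
      ≤ ((pr (fam (era l)) : ℝ) ^ (ef m 1 l - ef m 1 l'))⁻¹ := by
    rw [one_div]
    apply inv_anti₀ (by positivity)
    exact_mod_cast h1
  have h3 : (((∏ i : Fin 3, (2 * (pr i - 1))) : ℕ) : ℝ) ≤ 10 ^ 19 := by exact_mod_cast C_le
  have h4 : (0 : ℝ) ≤ ((pr (fam (era l)) : ℝ) ^ (ef m 1 l - ef m 1 l'))⁻¹ := by positivity
  set a : ℝ := ((pr (fam (era l)) : ℝ) ^ (ef m 1 l - ef m 1 l'))⁻¹ with ha
  set c : ℝ := (((∏ i : Fin 3, (2 * (pr i - 1))) : ℕ) : ℝ) with hc
  push_cast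
  set b : ℝ := (pr (fam (era l)) : ℝ) ^ (((l - l') - 2 * (ef m 1 l' - l')) / 2) with hbd
  have hb0 : 0 ≤ b := by positivity
  have hc0 : 0 ≤ c := by positivity
  calc c * b * (a + 1 / (pr (fam (era l + 2)) : ℝ) ^ av l (fam (era l + 2)))
      ≤ c * b * (a + a) := by
        apply mul_le_mul_of_nonneg_left _ (by positivity)
        have h2' := h2
        push_cast at h2'
        linarith
    _ = c * (2 * b * a) := by ring
    _ ≤ 10 ^ 19 * (2 * b * a) := mul_le_mul_of_nonneg_right h3 (by positivity)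
    _ = 2 * 10 ^ 19 * b * a := by ring

theorem exp_thirteen_le (f : Fin 3) : Real.exp 13 ≤ (pr f : ℝ) := by
  have h1 : Real.exp 13 = Real.exp 1 ^ 13 := by
    rw [← Real.exp_nat_mul]; norm_num
  have h2 := Real.exp_one_lt_d9
  have h3 : Real.exp 1 ^ 13 ≤ (2.7182818286 : ℝ) ^ 13 :=
    pow_le_pow_left₀ (Real.exp_pos 1).le h2.le 13
  have h4 : (1000003 : ℝ) ≤ (pr f : ℝ) := by exact_mod_cast pr_ge f
  rw [h1]
  refine h3.trans (le_trans ?_ h4)
  norm_num

theorem two_mul_le_exp : (2 * 10 ^ 19 : ℝ) ≤ Real.exp 45 := by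
  have h1 : Real.exp 45 = Real.exp 1 ^ 45 := by
    rw [← Real.exp_nat_mul]; norm_num
  have h2 := Real.exp_one_gt_d9
  have h3 : (2.7182818283 : ℝ) ^ 45 ≤ Real.exp 1 ^ 45 :=
    pow_le_pow_left₀ (by norm_num) h2.le 45
  rw [h1]
  refine le_trans ?_ h3
  norm_num

/-- powers of the prime against the exponential -/
theorem pow_ratio_le (f : Fin 3) {a b : ℕ} (h : a ≤ b) :
    (pr f : ℝ) ^ a * ((pr f : ℝ) ^ b)⁻¹ ≤ Real.exp (-(13 * ((b : ℝ) - a))) := by
  have hp : (0 : ℝ) < (pr f : ℝ) := lt_of_lt_of_le (Real.exp_pos _) (exp_thirteen_le f)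
  obtain ⟨d, rfl⟩ := Nat.exists_eq_add_of_le h
  have h1 : (pr f : ℝ) ^ a * ((pr f : ℝ) ^ (a + d))⁻¹ = ((pr f : ℝ) ^ d)⁻¹ := by
    rw [pow_add]
    field_simp
  have h2 : Real.exp (-(13 * (((a + d : ℕ) : ℝ) - a))) = (Real.exp 13 ^ d)⁻¹ := by
    rw [← Real.exp_nat_mul, ← Real.exp_neg]
    congr 1
    push_cast
    ring
  rw [h1, h2]
  exact inv_anti₀ (by positivity) (pow_le_pow_left₀ (Real.exp_pos _).le (exp_thirteen_le f) d)

/-- **(b), (c)**: the price of a label for `2 s' ≤ D ≤ 200 W` -/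
theorem rho_far : ∃ j0, ∀ m l l', 1 < m → j0 ≤ era l → 10 * m ≤ la (era l) → used m l →
    used m l' → l' ≤ l → era l' = era l → l - l' ≤ 200 * W m (era l) 1 →
    2 * (ef m 1 l' - l') ≤ l - l' →
    ((∏ i : Fin 3, (2 * (pr i - 1)) : ℕ) : ℝ) *
      ((∏ i ∈ univ.erase (fam (era l + 2)),
          pr i ^ ((av l i + av l' i - 2 * av (ef m 1 l') i) / 2) : ℕ) : ℝ) *
      ((Nj (ef m 1 l') : ℝ) / Nj (ef m 1 l) +
        1 / ((pr (fam (era l + 2)) ^ av l (fam (era l + 2)) : ℕ) : ℝ)) ≤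
      Real.exp (45 - 13 / 2 * (((l - l' : ℕ) : ℝ) + 2 * ((ef m 1 l - l : ℕ) : ℝ))) := by
  obtain ⟨j0, h0⟩ := rho_pow
  refine ⟨j0, fun m l l' hm hj hb hu hu' h he hD h2 => (h0 m l l' hm hj hb hu hu' h he hD).trans ?_⟩
  have h3 := ef_sub_ef hb hm h he
  have h4 : ((l - l') - 2 * (ef m 1 l' - l')) / 2 ≤ ef m 1 l - ef m 1 l' := by omega
  have h5 := pow_ratio_le (fam (era l)) h4
  have h6 : 2 * (((l - l') - 2 * (ef m 1 l' - l')) / 2) + (l - l') + 2 * (ef m 1 l - l)
      ≤ 2 * (ef m 1 l - ef m 1 l') := by omega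
  have h7 : (2 : ℝ) * ((((l - l') - 2 * (ef m 1 l' - l')) / 2 : ℕ) : ℝ) + ((l - l' : ℕ) : ℝ)
      + 2 * ((ef m 1 l - l : ℕ) : ℝ) ≤ 2 * ((ef m 1 l - ef m 1 l' : ℕ) : ℝ) := by
    exact_mod_cast h6
  rw [mul_assoc]
  calc 2 * 10 ^ 19 * ((pr (fam (era l)) : ℝ) ^ (((l - l') - 2 * (ef m 1 l' - l')) / 2) *
        ((pr (fam (era l)) : ℝ) ^ (ef m 1 l - ef m 1 l'))⁻¹)
      ≤ Real.exp 45 * Real.exp (-(13 * (((ef m 1 l - ef m 1 l' : ℕ) : ℝ) -
          ((((l - l') - 2 * (ef m 1 l' - l')) / 2 : ℕ) : ℝ)))) := by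
        apply mul_le_mul two_mul_le_exp h5 (by positivity) (Real.exp_pos _).le
    _ = Real.exp (45 + -(13 * (((ef m 1 l - ef m 1 l' : ℕ) : ℝ) -
          ((((l - l') - 2 * (ef m 1 l' - l')) / 2 : ℕ) : ℝ)))) := by rw [Real.exp_add]
    _ ≤ _ := by
        apply Real.exp_le_exp.2
        linarith

/-- the price of a label for `D ≤ 2 s'` (there the target determines the label) -/
theorem rho_near : ∃ j0, ∀ m l l', 1 < m → j0 ≤ era l → 10 * m ≤ la (era l) → used m l →
    used m l' → l' ≤ l → era l' = era l → l - l' ≤ 200 * W m (era l) 1 →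
    l - l' ≤ 2 * (ef m 1 l' - l') →
    ((∏ i : Fin 3, (2 * (pr i - 1)) : ℕ) : ℝ) *
      ((∏ i ∈ univ.erase (fam (era l + 2)),
          pr i ^ ((av l i + av l' i - 2 * av (ef m 1 l') i) / 2) : ℕ) : ℝ) *
      ((Nj (ef m 1 l') : ℝ) / Nj (ef m 1 l) +
        1 / ((pr (fam (era l + 2)) ^ av l (fam (era l + 2)) : ℕ) : ℝ)) ≤
      Real.exp (45 - 13 * ((ef m 1 l - ef m 1 l' : ℕ) : ℝ)) := by
  obtain ⟨j0, h0⟩ := rho_pow
  refine ⟨j0, fun m l l' hm hj hb hu hu' h he hD h2 => (h0 m l l' hm hj hb hu hu' h he hD).trans ?_⟩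
  have h4 : ((l - l') - 2 * (ef m 1 l' - l')) / 2 = 0 := by omega
  have h5 := pow_ratio_le (fam (era l)) (Nat.zero_le (ef m 1 l - ef m 1 l'))
  rw [h4, mul_assoc]
  calc 2 * 10 ^ 19 * ((pr (fam (era l)) : ℝ) ^ 0 *
        ((pr (fam (era l)) : ℝ) ^ (ef m 1 l - ef m 1 l'))⁻¹)
      ≤ Real.exp 45 * Real.exp (-(13 * (((ef m 1 l - ef m 1 l' : ℕ) : ℝ) - ((0 : ℕ) : ℝ)))) := by
        apply mul_le_mul two_mul_le_exp h5 (by positivity) (Real.exp_pos _).le
    _ = Real.exp (45 + -(13 * (((ef m 1 l - ef m 1 l' : ℕ) : ℝ) - ((0 : ℕ) : ℝ)))) := by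
        rw [Real.exp_add]
    _ ≤ _ := by
        apply Real.exp_le_exp.2
        simp only [Nat.cast_zero, sub_zero]
        linarith

/-- the jump of the code: at least `D - P` -/
theorem jump_ge (hb : 10 * m ≤ la (era l)) (hm : 1 < m) (h : l' ≤ l) (he : era l' = era l) :
    l - l' ≤ (ef m 1 l - ef m 1 l') + PP m (era l) 1 := by
  have h1 := ef_sub_ef hb hm h he
  have h2 := two_ef_le m 1 l'
  have h3 := lt_two_ef hb hm
  have h4 := lt_ef (l := l') (by rw [he]; exact hb) hm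
  have h5 := ef_mono m 1 h he
  rw [he] at h2
  omega

end Rho

end Pool.Agent.Helper36.T5
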