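import Pool.Agent.Helper96.T5.Inst
import Pool.Agent.Helper36.T5.MpNum

/-!
# T5a, block J0: the numbers of `mp`
-/

set_option autoImplicit false

namespace Pool.Agent.Helper36.T5

open Finset Pool.Agent.Helper27.T4 Pool.Agent.Helper27.T5
open Pool.Agent.Helper5.ET hiding Key Mk keysOf AA Rp vlo vhi bkey
open Pool.Agent.Helper22.HW hiding fam
open Pool.Agent.Helper39.T5 Pool.Agent.Helper11.T5 Pool.Agent.Helper3.T5 Pool.Agent.Helper96.T5

variable {m l' l : ℕ}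

theorem mp_q' (hm : 1 < m) (hb : 10 * m ≤ la (era l)) (hu : used m l) :
    (mp m l' l).q = pr (fam (era l + 2)) ^ av l (fam (era l + 2)) := mp_q hm hb hu

theorem mp_C' : (mp m l' l).C = ∏ i : Fin 3, (2 * (pr i - 1)) := rfl

theorem mp_C_le : (mp m l' l).C ≤ 10 ^ 19 := C_le

theorem mp_Lam' (hm : 1 < m) (hb : 10 * m ≤ la (era l)) (hu' : used m l')
    (he : era l' = era l) (hl : l' ≤ l) :
    (mp m l' l).Lam = pr (fam (era l)) ^ (((l - l') - 2 * (ef m 1 l' - l')) / 2) :=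
  Lam_eq hu' (by rw [he]; exact hb) hm hl he (fam_add_two_ne _)

/-- number of labels of a pair in J1: `b = c'` -/
theorem mp_labels (he : era l' = era l) (hl : l' ≤ l) :
    (∏ i, (mp m l' l).p i ^ (((mp m l' l).c i + (mp m l' l).c' i - 2 * (mp m l' l).c' i) / 2))
      = pr (fam (era l)) ^ ((l - l') / 2) := prod_av_self hl he

/-- class numbers in J1: `b = av (ef m i l')` -/
theorem mp_classes {i : ℕ} (hb : 10 * m ≤ la (era l)) (hu' : used m l')
    (he : era l' = era l) (hl : l' ≤ l) (h1 : 1 ≤ i) (hi : i < m) :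
    (∏ f, (mp m l' l).p f ^
        (((mp m l' l).c f + (mp m l' l).c' f - 2 * av (ef m i l') f) / 2))
      = pr (fam (era l)) ^ (((l - l') - 2 * (ef m i l' - l')) / 2) :=
  prod_av_ef hu' (by rw [he]; exact hb) hl he h1 hi

/-- the price of a label, powers of the prime -/
theorem rho_mp_pow : ∃ j0, ∀ m l l', 1 < m → j0 ≤ era l → 10 * m ≤ la (era l) → used m l →
    used m l' → l' ≤ l → era l' = era l → l - l' ≤ 200 * W m (era l) 1 →
    ((mp m l' l).C : ℝ) * (mp m l' l).Lam *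
      (((mp m l' l).Ne' : ℝ) / (mp m l' l).Ne + 1 / (mp m l' l).q) ≤
      2 * 10 ^ 19 * (pr (fam (era l)) : ℝ) ^ (((l - l') - 2 * (ef m 1 l' - l')) / 2) *
        ((pr (fam (era l)) : ℝ) ^ (ef m 1 l - ef m 1 l'))⁻¹ := by
  obtain ⟨j0, h0⟩ := rho_pow
  refine ⟨j0, fun m l l' hm hj hb hu hu' h he hD => ?_⟩
  rw [mp_q' hm hb hu]
  exact h0 m l l' hm hj hb hu hu' h he hD

/-- **the price of a label**, `2 s' ≤ D ≤ 200 W` -/
theorem rho_mp_far : ∃ j0, ∀ m l l', 1 < m → j0 ≤ era l → 10 * m ≤ la (era l) → used m l →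
    used m l' → l' ≤ l → era l' = era l → l - l' ≤ 200 * W m (era l) 1 →
    2 * (ef m 1 l' - l') ≤ l - l' →
    ((mp m l' l).C : ℝ) * (mp m l' l).Lam *
      (((mp m l' l).Ne' : ℝ) / (mp m l' l).Ne + 1 / (mp m l' l).q) ≤
      Real.exp (45 - 13 / 2 * (((l - l' : ℕ) : ℝ) + 2 * ((ef m 1 l - l : ℕ) : ℝ))) := by
  obtain ⟨j0, h0⟩ := rho_far
  refine ⟨j0, fun m l l' hm hj hb hu hu' h he hD h2 => ?_⟩
  rw [mp_q' hm hb hu]
  exact h0 m l l' hm hj hb hu hu' h he hD h2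

/-- **the price of a label**, `D ≤ 2 s'` -/
theorem rho_mp_near : ∃ j0, ∀ m l l', 1 < m → j0 ≤ era l → 10 * m ≤ la (era l) → used m l →
    used m l' → l' ≤ l → era l' = era l → l - l' ≤ 200 * W m (era l) 1 →
    l - l' ≤ 2 * (ef m 1 l' - l') →
    ((mp m l' l).C : ℝ) * (mp m l' l).Lam *
      (((mp m l' l).Ne' : ℝ) / (mp m l' l).Ne + 1 / (mp m l' l).q) ≤
      Real.exp (45 - 13 * ((ef m 1 l - ef m 1 l' : ℕ) : ℝ)) := by
  obtain ⟨j0, h0⟩ := rho_near
  refine ⟨j0, fun m l l' hm hj hb hu hu' h he hD h2 => ?_⟩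
  rw [mp_q' hm hb hu]
  exact h0 m l l' hm hj hb hu hu' h he hD h2

end Pool.Agent.Helper36.T5
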