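import Pool.Agent.Helper75.T5.Sink
import Pool.Agent.Helper1.T5.CondStatic

/-!
# T5b, OUT1: the outermost static level is keyed by the extra families

Fixed labels `g ∈ I` with targets `X g` and outer keys `o g`, `o' g`.  The first level is an
`OSide` pair (its tables are keyed by the outer key), below it there are the static levels of a
`Pr` with windows `B`, `B'`.

* `out1`: few labels with pairwise different outer keys `o` are hit.  Either many of them have the
  same value `T₂` of the target after the keyed level (excluded by `est5` with a window of one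
  point), or there are many different values `T₂` (excluded by the static block, conditionally on
  the tables of the keyed level).
* `out_all`: all labels, if for constant outer keys `(o, o')` the number of hits is bounded.
-/

set_option autoImplicit false

namespace Pool.Agent.Helper36.T5

open Finset Pool.Agent.Helper27.T4 Pool.Agent.Helper29.T4 Pool.Agent.Helper22.HW
  Pool.Agent.Helper22.SL Pool.Agent.Helper1.T5 Pool.Agent.Helper75.T5

/-! ## the two forms of the probability -/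

theorem prG_of_prLe {κ : Type*} [DecidableEq κ] {Mk : κ → ℕ} {K : Finset κ}
    {B : (κ → ℕ) → Prop} {ε : ℝ} (h : Pool.Agent.Helper42.T5.Pr.PrLe Mk K B ε) :
    PrG Mk K B ε := h

/-! ## divisibility of the target -/

section Dvd

variable {κ : Type*} {Mk : κ → ℕ} {P : Pr κ}

theorem L_zero : P.L 0 = P.L0 := by simp [Pr.L]

theorem L_dvd_succ (r : ℕ) : P.L r ∣ P.L (r + 1) := by
  unfold Pr.L
  rw [Finset.prod_range_succ, ← mul_assoc]
  exact dvd_mul_right _ _

theorem HitT_dvd (hP : P.Ok Mk) {w : κ → ℕ} {B B' : Finset ℕ} {t : ℕ} (h : HitT P w B B' t) :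
    P.M' * P.L0 ∣ t := by
  obtain ⟨d, b, b', h1, h2, h3, h4⟩ := h
  rcases Nat.eq_zero_or_pos P.h with h0 | h0
  · rw [h0] at h4
    have e : TT (fun _ => t) (0, d) 0 = t := rfl
    rw [e, L_zero] at h4
    rw [← h4]
    refine dvd_add ?_ ?_
    · exact Dvd.dvd.mul_right (Nat.mul_dvd_mul_right hP.M'M _) _
    · exact dvd_mul_right _ _
  · have hl := h1 0 h0
    have e : TT (fun _ => t) (0, d) 0 = t := rfl
    rw [e] at hl
    have hM : P.M' ∣ P.F 1 := hP.M'M.trans (hP.MF 1 h0)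
    have hM' : P.M' ∣ P.F' 1 := hP.M'F' 1 h0
    have a1 : P.M' * P.L0 ∣ (d 0).2.1 := by
      refine dvd_trans ?_ hl.dvd
      rw [L_zero]
      exact Nat.mul_dvd_mul_right hM _
    have a2 : P.M' * P.L0 ∣ (d 0).2.2 := by
      refine dvd_trans ?_ hl.dvd'
      rw [L_zero]
      exact Nat.mul_dvd_mul_right hM' _
    have a3 : P.M' * P.L0 ∣ t - ((d 0).2.1 + (d 0).2.2) := by
      refine dvd_trans ?_ hl.tdvd
      refine Nat.mul_dvd_mul_left _ ?_
      rw [← L_zero (P := P)]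
      exact L_dvd_succ 0
    have a4 := dvd_add a3 (dvd_add a1 a2)
    rwa [Nat.sub_add_cancel hl.le] at a4

end Dvd

/-! ## the values of the target after the keyed level -/

section Tgt

variable {ι : Type*} [Fintype ι] [DecidableEq ι] {p : ι → ℕ} {κ ω γ : Type*} {Mk : κ → ℕ}

/-- the sum of the two codes of the keyed level -/
noncomputable def cc2 (hp : ∀ i, (p i).Prime) (hinj : Function.Injective p) (S S' : OSide p κ ω)
    (o o' : γ → ω) (w : κ → ℕ) (q : γ × ((ι → ℕ) × (ι → ℕ))) : ℕ :=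
  S.cd hp hinj w (o q.1) q.2.1 + S'.cd hp hinj w (o' q.1) q.2.2

open Classical in
/-- labels with two vectors of the keyed level whose codes fit to the target -/
noncomputable def cnd2 (hp : ∀ i, (p i).Prime) (hinj : Function.Injective p) (S S' : OSide p κ ω)
    (I : Finset γ) (X : γ → ℕ) (o o' : γ → ω) (Y Y' : Finset (ι → ℕ)) (M : ℕ) (w : κ → ℕ) :
    Finset (γ × ((ι → ℕ) × (ι → ℕ))) :=
  (I ×ˢ (Y ×ˢ Y')).filter (fun q => cc2 hp hinj S S' o o' w q ≤ X q.1 ∧
    M ∣ X q.1 - cc2 hp hinj S S' o o' w q)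

open Classical in
/-- the values of the target after the keyed level -/
noncomputable def tgt (hp : ∀ i, (p i).Prime) (hinj : Function.Injective p) (S S' : OSide p κ ω)
    (I : Finset γ) (X : γ → ℕ) (o o' : γ → ω) (Y Y' : Finset (ι → ℕ)) (M : ℕ) (w : κ → ℕ) :
    Finset ℕ :=
  (cnd2 hp hinj S S' I X o o' Y Y' M w).image (fun q => X q.1 - cc2 hp hinj S S' o o' w q)

variable {S S' : OSide p κ ω} {rk : ι → ℕ}

/-- decoding of the keyed level for one label -/
theorem cnd2_fiber (hp : ∀ i, (p i).Prime) (hp2 : ∀ i, p i ≠ 2) (hinj : Function.Injective p)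
    (hS : S.Ok rk Mk) (hS' : S'.Ok rk Mk) (hee : S'.e = S.e) {Y Y' : Finset (ι → ℕ)}
    (hY : Adm p S.e Y) (hY' : Adm p S.e Y') (I : Finset γ) (X : γ → ℕ) (o o' : γ → ω) {M : ℕ}
    (hM : NN p S.e ∣ M) (w : κ → ℕ) (g : γ) :
    (open Classical in ((cnd2 hp hinj S S' I X o o' Y Y' M w).filter (fun q => q.1 = g)).card) ≤
      ∏ i, (2 * (p i - 1)) := by
  classical
  have hd := dec_static hp hp2 hinj (S.side (o g)).F (S'.side (o' g)).F (hS.ok (o g)).cop
    (hS'.ok (o' g)).cop rk S.e S'.e S.e (fun _ => le_rfl) (fun i => by rw [hee])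
    ((S.side (o g)).rho w) ((S'.side (o' g)).rho w) ((hS.ok (o g)).rho_dep w)
    ((hS'.ok (o' g)).rho_dep w) Y Y' hY hY' (X g)
  refine le_trans (Finset.card_le_card_of_injOn (fun q => q.2) ?_ ?_) hd
  · intro q hq
    obtain ⟨hq1, hq2⟩ := mem_filter.1 (mem_coe.1 hq)
    rw [cnd2, mem_filter, mem_product] at hq1
    obtain ⟨⟨-, h1⟩, h2, h3⟩ := hq1
    refine mem_coe.2 (mem_filter.2 ⟨h1, ?_⟩)
    have h4 : NN p S.e ∣ X q.1 - cc2 hp hinj S S' o o' w q := hM.trans h3
    have h5 := (Nat.modEq_iff_dvd' h2).2 h4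
    unfold cc2 at h5
    rw [hq2] at h5
    exact h5
  · intro q hq q' hq' he
    have h1 := (mem_filter.1 (mem_coe.1 hq)).2
    have h2 := (mem_filter.1 (mem_coe.1 hq')).2
    exact Prod.ext (h1.trans h2.symm) he

/-- the number of values in a class is at most `C` times the number of labels in the class -/
theorem tgt_class (hp : ∀ i, (p i).Prime) (hp2 : ∀ i, p i ≠ 2) (hinj : Function.Injective p)
    (hS : S.Ok rk Mk) (hS' : S'.Ok rk Mk) (hee : S'.e = S.e) {Y Y' : Finset (ι → ℕ)}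
    (hY : Adm p S.e Y) (hY' : Adm p S.e Y') (I : Finset γ) (X : γ → ℕ) (o o' : γ → ω) {M : ℕ}
    (hM : NN p S.e ∣ M) (w : κ → ℕ) {F : ℕ} (hF : F ∣ S.F) (hF' : F ∣ S'.F) (c : ℕ) :
    ((tgt hp hinj S S' I X o o' Y Y' M w).filter (fun t => t % F = c % F)).card ≤
      (∏ i, (2 * (p i - 1))) * (I.filter (fun g => X g % F = c % F)).card := by
  classical
  have h1 : ((tgt hp hinj S S' I X o o' Y Y' M w).filter (fun t => t % F = c % F)).card ≤
      ((cnd2 hp hinj S S' I X o o' Y Y' M w).filter (fun q => X q.1 % F = c % F)).card := by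
    refine le_trans (card_le_card ?_) (card_image_le (f := fun q =>
      X q.1 - cc2 hp hinj S S' o o' w q))
    intro t ht
    obtain ⟨ht1, ht2⟩ := mem_filter.1 ht
    rw [tgt, mem_image] at ht1
    obtain ⟨q, hq, rfl⟩ := ht1
    refine mem_image.2 ⟨q, mem_filter.2 ⟨hq, ?_⟩, rfl⟩
    rw [cnd2, mem_filter] at hq
    have d1 : F ∣ S.cd hp hinj w (o q.1) q.2.1 := hF.trans (dvd_fc hp hinj S.F S.e _)
    have d2 : F ∣ S'.cd hp hinj w (o' q.1) q.2.2 := hF'.trans (dvd_fc hp hinj S'.F S'.e _)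
    have d3 : F ∣ cc2 hp hinj S S' o o' w q := dvd_add d1 d2
    have d4 : X q.1 = (X q.1 - cc2 hp hinj S S' o o' w q) + cc2 hp hinj S S' o o' w q := by
      have := hq.2.1
      omega
    have d5 : (cc2 hp hinj S S' o o' w q) % F = 0 := Nat.mod_eq_zero_of_dvd d3
    rw [← ht2]
    conv_lhs => rw [d4]
    rw [Nat.add_mod, d5, add_zero, Nat.mod_mod]
  refine h1.trans ?_
  rw [mul_comm]
  have h2 : ((cnd2 hp hinj S S' I X o o' Y Y' M w).filter (fun q => X q.1 % F = c % F)).card ≤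
      ∑ g ∈ I.filter (fun g => X g % F = c % F),
        (((cnd2 hp hinj S S' I X o o' Y Y' M w).filter (fun q => X q.1 % F = c % F)).filter
          (fun q => q.1 = g)).card := by
    refine (card_eq_sum_card_fiberwise (fun q hq => ?_)).le
    obtain ⟨hq1, hq2⟩ := mem_filter.1 (mem_coe.1 hq)
    rw [cnd2, mem_filter, mem_product] at hq1
    exact mem_coe.2 (mem_filter.2 ⟨hq1.1.1, hq2⟩)
  refine h2.trans (sum_le_card_nsmul _ _ _ (fun g _ => ?_))
  refine le_trans (card_le_card ?_) (cnd2_fiber hp hp2 hinj hS hS' hee hY hY' I X o o' hM w g)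
  intro q hq
  obtain ⟨hq1, hq2⟩ := mem_filter.1 hq
  exact mem_filter.2 ⟨(mem_filter.1 hq1).1, hq2⟩

theorem tgt_card (hp : ∀ i, (p i).Prime) (hp2 : ∀ i, p i ≠ 2) (hinj : Function.Injective p)
    (hS : S.Ok rk Mk) (hS' : S'.Ok rk Mk) (hee : S'.e = S.e) {Y Y' : Finset (ι → ℕ)}
    (hY : Adm p S.e Y) (hY' : Adm p S.e Y') (I : Finset γ) (X : γ → ℕ) (o o' : γ → ω) {M : ℕ}
    (hM : NN p S.e ∣ M) (w : κ → ℕ) :
    (tgt hp hinj S S' I X o o' Y Y' M w).card ≤ (∏ i, (2 * (p i - 1))) * I.card := by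
  classical
  have h := tgt_class hp hp2 hinj hS hS' hee hY hY' I X o o' hM w (F := 1) (one_dvd _)
    (one_dvd _) 0
  simpa [Nat.mod_one] using h

theorem mem_tgt (hp : ∀ i, (p i).Prime) (hinj : Function.Injective p) {I : Finset γ} {X : γ → ℕ}
    {o o' : γ → ω} {Y Y' : Finset (ι → ℕ)} {M : ℕ} {w : κ → ℕ} {g : γ} (hg : g ∈ I)
    {y y' : ι → ℕ} (hy : y ∈ Y) (hy' : y' ∈ Y') {t : ℕ}
    (h : S.cd hp hinj w (o g) y + S'.cd hp hinj w (o' g) y' + t = X g) (hM : M ∣ t) :
    t ∈ tgt hp hinj S S' I X o o' Y Y' M w := by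
  classical
  rw [tgt, mem_image]
  refine ⟨(g, (y, y')), ?_, ?_⟩
  · rw [cnd2, mem_filter, mem_product, mem_product]
    refine ⟨⟨hg, hy, hy'⟩, ?_, ?_⟩
    · unfold cc2
      simp only
      omega
    · unfold cc2
      simp only
      rwa [show X g - (S.cd hp hinj w (o g) y + S'.cd hp hinj w (o' g) y') = t by omega]
  · unfold cc2
    simp only
    omega

theorem tgt_spec (hp : ∀ i, (p i).Prime) (hinj : Function.Injective p) (hS : S.Ok rk Mk)
    (hS' : S'.Ok rk Mk) {I : Finset γ} {X : γ → ℕ} {o o' : γ → ω} {Y Y' : Finset (ι → ℕ)} {M : ℕ}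
    {w : κ → ℕ} {t : ℕ} (ht : t ∈ tgt hp hinj S S' I X o o' Y Y' M w) :
    ∃ g ∈ I, M ∣ t ∧ t ≤ X g ∧ X g < t + (S.F * NN p S.e + S'.F * NN p S'.e) := by
  classical
  rw [tgt, mem_image] at ht
  obtain ⟨q, hq, rfl⟩ := ht
  rw [cnd2, mem_filter, mem_product] at hq
  have h1 : S.cd hp hinj w (o q.1) q.2.1 < S.F * NN p S.e :=
    fc_lt hp hinj S.F (hS.ok (o q.1)).pos S.e _
  have h2 : S'.cd hp hinj w (o' q.1) q.2.2 < S'.F * NN p S'.e :=
    fc_lt hp hinj S'.F (hS'.ok (o' q.1)).pos S'.e _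
  have h3 : cc2 hp hinj S S' o o' w q < S.F * NN p S.e + S'.F * NN p S'.e := by
    unfold cc2
    omega
  have h4 := hq.2.1
  exact ⟨q.1, hq.1.1, hq.2.2, by omega, by omega⟩

variable {P : Pr κ}

/-- **the requirements of the static block** for the set of all values after the keyed level -/
theorem tgS_tgt (hp : ∀ i, (p i).Prime) (hp2 : ∀ i, p i ≠ 2) (hinj : Function.Injective p)
    (hS : S.Ok rk Mk) (hS' : S'.Ok rk Mk) (hee : S'.e = S.e) {Y Y' : Finset (ι → ℕ)}
    (hY : Adm p S.e Y) (hY' : Adm p S.e Y') (I : Finset γ) (X : γ → ℕ) (o o' : γ → ω)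
    (hQ : NN p S.e ∣ P.M' * P.L0)
    (hwin : ∀ g ∈ I, ∀ g' ∈ I, X g + (S.F * NN p S.e + S'.F * NN p S'.e) ≤ X g' + P.F 0 * P.L0)
    (hF : ∀ r, 1 ≤ r → r ≤ P.h → P.F' r ∣ S.F ∧ P.F' r ∣ S'.F) {Ir : ℕ → ℕ}
    (hI0 : (∏ i, (2 * (p i - 1))) * I.card ≤ Ir 0)
    (hIr : ∀ r, 1 ≤ r → r ≤ P.h → ∀ c,
      (open Classical in (∏ i, (2 * (p i - 1))) *
        (I.filter (fun g => X g % P.F' r = c % P.F' r)).card) ≤ Ir r)
    (w : κ → ℕ) : TgS P (tgt hp hinj S S' I X o o' Y Y' (P.M' * P.L0) w) Ir where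
  dvd t ht := by
    obtain ⟨g, -, h, -⟩ := tgt_spec hp hinj hS hS' ht
    exact h
  win t ht u hu := by
    obtain ⟨g, hg, -, h1, -⟩ := tgt_spec hp hinj hS hS' ht
    obtain ⟨g', hg', -, -, h2⟩ := tgt_spec hp hinj hS hS' hu
    have := hwin g hg g' hg'
    omega
  cls r hr c := by
    classical
    rcases Nat.eq_zero_or_pos r with rfl | h1
    · refine le_trans (card_le_card (filter_subset _ _)) (le_trans ?_ hI0)
      exact tgt_card hp hp2 hinj hS hS' hee hY hY' I X o o' hQ w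
    · refine le_trans (tgt_class hp hp2 hinj hS hS' hee hY hY' I X o o' hQ w (hF r h1 hr).1
        (hF r h1 hr).2 c) ?_
      have := hIr r h1 hr c
      convert this

/-- the number of pairs of windows, from a bound for one target -/
theorem PPs_le {T : Finset ℕ} {B B' : Finset ℕ} {E : ℕ}
    (hE : ∀ t ∈ T, ((B ×ˢ B').filter
      (fun q => P.M * P.L P.h * q.1 + P.M' * P.L P.h * q.2 ∈ APt P P.h t)).card ≤ E) :
    PPs P T B B' ≤ T.card * E := by
  classical
  unfold PPs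
  refine (card_eq_sum_card_fiberwise (f := fun q => q.1) (t := T) (fun q hq => ?_)).le.trans ?_
  · exact mem_coe.2 (mem_product.1 (mem_filter.1 (mem_coe.1 hq)).1).1
  · refine sum_le_card_nsmul _ _ _ (fun t ht => ?_)
    refine le_trans (card_le_card_of_injOn (fun q => q.2) ?_ ?_) (hE t ht)
    · intro q hq
      obtain ⟨h1, h2⟩ := mem_filter.1 (mem_coe.1 hq)
      obtain ⟨h3, h4⟩ := mem_filter.1 h1
      rw [h2] at h4
      exact mem_coe.2 (mem_filter.2 ⟨(mem_product.1 h3).2, h4⟩)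
    · intro q hq q' hq' he
      have h1 := (mem_filter.1 (mem_coe.1 hq)).2
      have h2 := (mem_filter.1 (mem_coe.1 hq')).2
      exact Prod.ext (h1.trans h2.symm) he

/-- the codes of the keyed level depend on its keys only -/
theorem cd_congr (hp : ∀ i, (p i).Prime) (hinj : Function.Injective p) (S : OSide p κ ω)
    {w w' : κ → ℕ} {o : ω} {y : ι → ℕ} (h : ∀ i, w (S.key o i y) = w' (S.key o i y)) :
    S.cd hp hinj w o y = S.cd hp hinj w' o y := by
  unfold OSide.cd Side.cd lc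
  congr 1
  funext i
  unfold Side.rho
  have h1 : w ((S.side o).key i y) = w' ((S.side o).key i y) := h i
  rw [h1]

theorem tgt_congr (hp : ∀ i, (p i).Prime) (hinj : Function.Injective p) (S S' : OSide p κ ω)
    (I : Finset γ) (X : γ → ℕ) (o o' : γ → ω) (Y Y' : Finset (ι → ℕ)) (M : ℕ) {w w' : κ → ℕ}
    (h : ∀ g ∈ I, ∀ y ∈ Y, ∀ i, w (S.key (o g) i y) = w' (S.key (o g) i y))
    (h' : ∀ g ∈ I, ∀ y ∈ Y', ∀ i, w (S'.key (o' g) i y) = w' (S'.key (o' g) i y)) :
    tgt hp hinj S S' I X o o' Y Y' M w = tgt hp hinj S S' I X o o' Y Y' M w' := by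
  classical
  have h1 : ∀ q ∈ I ×ˢ (Y ×ˢ Y'), cc2 hp hinj S S' o o' w q = cc2 hp hinj S S' o o' w' q := by
    intro q hq
    rw [mem_product, mem_product] at hq
    unfold cc2
    rw [cd_congr hp hinj S (h q.1 hq.1 q.2.1 hq.2.1),
      cd_congr hp hinj S' (h' q.1 hq.1 q.2.2 hq.2.2)]
  have h2 : cnd2 hp hinj S S' I X o o' Y Y' M w = cnd2 hp hinj S S' I X o o' Y Y' M w' := by
    unfold cnd2
    refine filter_congr (fun q hq => ?_)
    rw [h1 q hq]
  unfold tgt
  rw [h2]
  refine image_congr (fun q hq => ?_)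
  have hq' := (mem_filter.1 (mem_coe.1 hq)).1
  rw [h1 q hq']

end Tgt

/-! ## OUT1 -/

section Out

variable {ι : Type*} [Fintype ι] [DecidableEq ι] {p : ι → ℕ} {κ ω γ : Type*} [DecidableEq κ]
  {Mk : κ → ℕ} {S S' : OSide p κ ω} {rk : ι → ℕ} {P : Pr κ}

/-- the label `g` is hit through the keyed level and the static levels below it -/
def KHit (hp : ∀ i, (p i).Prime) (hinj : Function.Injective p) (S S' : OSide p κ ω) (P : Pr κ)
    (X : γ → ℕ) (o o' : γ → ω) (Y Y' : Finset (ι → ℕ)) (B B' : Finset ℕ) (w : κ → ℕ)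
    (g : γ) : Prop :=
  ∃ y ∈ Y, ∃ y' ∈ Y', ∃ t,
    S.cd hp hinj w (o g) y + S'.cd hp hinj w (o' g) y' + t = X g ∧ HitT P w B B' t

/-- requirements for the keyed level above the static levels -/
structure KOk (p : ι → ℕ) (S S' : OSide p κ ω) (rk : ι → ℕ) (Mk : κ → ℕ) (P : Pr κ)
    (K : Finset κ) (I : Finset γ) (X : γ → ℕ) (o o' : γ → ω) (Y Y' : Finset (ι → ℕ)) (f : ι)
    (Ir : ℕ → ℕ) : Prop where
  pr : ∀ i, (p i).Prime
  odd : ∀ i, p i ≠ 2
  inj : Function.Injective p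
  ok : S.Ok rk Mk
  ok' : S'.Ok rk Mk
  dj : ∀ o i y o' i' y', S.key o i y ≠ S'.key o' i' y'
  ee : S'.e = S.e
  rank : ∀ i, i ≠ f → rk f < rk i
  adm : Adm p S.e Y
  adm' : Adm p S.e Y'
  keys : ∀ g ∈ I, ∀ y ∈ Y, ∀ i, S.key (o g) i y ∈ K
  keys' : ∀ g ∈ I, ∀ y ∈ Y', ∀ i, S'.key (o' g) i y ∈ K
  pok : P.Ok Mk
  pkeys : ∀ r < P.h, ∀ i, ∀ y ∈ P.Y r, P.key r i y ∈ K ∧ P.key' r i y ∈ K
  sep : ∀ r i y o j z, P.key r i y ≠ S.key o j z ∧ P.key r i y ≠ S'.key o j z ∧
    P.key' r i y ≠ S.key o j z ∧ P.key' r i y ≠ S'.key o j z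
  Q : NN p S.e ∣ P.M' * P.L0
  win : ∀ g ∈ I, ∀ g' ∈ I, X g + (S.F * NN p S.e + S'.F * NN p S'.e) ≤ X g' + P.F 0 * P.L0
  F : ∀ r, 1 ≤ r → r ≤ P.h → P.F' r ∣ S.F ∧ P.F' r ∣ S'.F
  Ir0 : (∏ i, (2 * (p i - 1))) * I.card ≤ Ir 0
  Ir : ∀ r, 1 ≤ r → r ≤ P.h → ∀ c, (open Classical in (∏ i, (2 * (p i - 1))) *
        (I.filter (fun g => X g % P.F' r = c % P.F' r)).card) ≤ Ir r

open Classical in
/-- **OUT1**: few labels with pairwise different outer keys -/
theorem out1 (hMk : ∀ k, 0 < Mk k) {K : Finset κ} {I : Finset γ} {X : γ → ℕ} {o o' : γ → ω}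
    {Y Y' : Finset (ι → ℕ)} {f : ι} {Ir : ℕ → ℕ}
    (h : KOk p S S' rk Mk P K I X o o' Y Y' f Ir) {n1 : ℕ} (hn1 : ∀ g ∈ I, X g < n1)
    (B B' : Finset ℕ) {E : ℕ}
    (hE : ∀ t, ((B ×ˢ B').filter
      (fun q => P.M * P.L P.h * q.1 + P.M' * P.L P.h * q.2 ∈ APt P P.h t)).card ≤ E)
    -- the static block
    {ρ Γ : ℝ} (hρ : 0 ≤ ρ)
    (hA : ∀ r < P.h, 80 * (((∏ i, (2 * (p i - 1))) * I.card : ℕ) : ℝ) * P.A r * P.p r 0 *
      P.p r 2 * Real.sqrt (P.q r 1) ≤ ρ * P.q r 1)
    (hB : ∀ r < P.h, 1 ≤ r → Ir r * P.A r * P.pc r ≤ ρ)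
    (hL : (((∏ i, (2 * (p i - 1))) * I.card * E : ℕ) : ℝ) * P.A P.h * P.pc P.h ≤ ρ)
    (hΓ : ∀ r < P.h, (P.q r 0 * P.q r 1 : ℕ) * (P.W r * P.q r 1) ≤ Γ) (hΓ' : P.W P.h ≤ Γ)
    {m : ℕ} (hm : 1 ≤ m)
    -- estimate (5)
    {QA QB : ℝ} (hQA0 : 0 ≤ QA) (hQB0 : 0 ≤ QB)
    (hQA : (((I.card * (Y.card * Y'.card)) *
        (S'.F * NN p S'.e / (S.F * p f ^ S'.e f) + 1) : ℕ) : ℝ)
      ≤ QA * ((NN p S.e : ℝ) * (MM p S'.e (univ.erase f) : ℝ)))
    (hQB : (I.card : ℝ) * (Y.image (fun y => y f)).card ≤ QB * (p f ^ S.e f : ℕ)) (m1 m2 : ℕ) :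
    PrG Mk K (fun w => ∃ H ⊆ I, m1 * m2 * (m + 1) ^ 2 ^ (4 * P.h) < H.card ∧ Set.InjOn o H ∧
        ∀ g ∈ H, KHit h.pr h.inj S S' P X o o' Y Y' B B' w g)
      (n1 * ((((I.card * (Y.card * Y'.card)) *
        (S'.F * NN p S'.e / (S.F * p f ^ S'.e f) + 1) : ℕ) : ℝ) * QA ^ m1 +
      ((I.image o').card * (Y'.image (fun y => y f)).card : ℕ) *
        ((I.card * (Y.image (fun y => y f)).card : ℕ) * QB ^ m2)) +
      (3 * P.h + 1) * Γ * ρ ^ (m + 1)) := by
  classical
  set N := (m + 1) ^ 2 ^ (4 * P.h) with hN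
  set C := ∏ i, (2 * (p i - 1)) with hC
  set M := P.M' * P.L0 with hM
  set T2 := tgt h.pr h.inj S S' I X o o' Y Y' M with hT2
  -- keys of the keyed level
  set K0 := K.filter (fun k => (∃ o i y, S.key o i y = k) ∨ (∃ o i y, S'.key o i y = k)) with hK0
  have hK0K : K0 ⊆ K := filter_subset _ _
  -- many different values
  have hst : PrG Mk K (fun w => ∃ H ⊆ T2 w, 1 * (m + 1) ^ 2 ^ (4 * P.h) ≤ H.card ∧
      ∀ t ∈ H, HitT P w B B' t) (0 + (3 * P.h + 1) * Γ * ρ ^ (m + 1)) := by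
    refine cond_static (Ir := Ir) (I := C * I.card) h.pok hMk hK0K T2 (fun _ t => t) ?_ ?_
      (fun _ => True)
      (PrG_false (fun _ _ hn => hn trivial) le_rfl) le_rfl ?_ ?_ ?_ B B' hρ hA hB ?_ hΓ hΓ' hm
    · intro w w' hw
      refine ⟨?_, fun _ _ => rfl⟩
      refine tgt_congr h.pr h.inj S S' I X o o' Y Y' M ?_ ?_
      · intro g hg y hy i
        exact hw _ (mem_filter.2 ⟨h.keys g hg y hy i, Or.inl ⟨_, _, _, rfl⟩⟩)
      · intro g hg y hy i
        exact hw _ (mem_filter.2 ⟨h.keys' g hg y hy i, Or.inr ⟨_, _, _, rfl⟩⟩)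
    · intro r hr i y hy
      obtain ⟨k1, k2⟩ := h.pkeys r hr i y hy
      refine ⟨mem_sdiff.2 ⟨k1, ?_⟩, mem_sdiff.2 ⟨k2, ?_⟩⟩
      · intro hk
        rcases (mem_filter.1 hk).2 with ⟨o1, i1, y1, he⟩ | ⟨o1, i1, y1, he⟩
        · exact (h.sep r i y o1 i1 y1).1 he.symm
        · exact (h.sep r i y o1 i1 y1).2.1 he.symm
      · intro hk
        rcases (mem_filter.1 hk).2 with ⟨o1, i1, y1, he⟩ | ⟨o1, i1, y1, he⟩
        · exact (h.sep r i y o1 i1 y1).2.2.1 he.symm
        · exact (h.sep r i y o1 i1 y1).2.2.2 he.symm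
    · intro w _ t
      refine le_trans (card_le_card (t := {t}) ?_) (by simp)
      intro x hx
      exact mem_singleton.2 (mem_filter.1 hx).2
    · intro w _
      have e : (T2 w).image (fun t => t) = T2 w := image_id
      rw [e]
      exact tgS_tgt h.pr h.odd h.inj h.ok h.ok' h.ee h.adm h.adm' I X o o' h.Q h.win h.F h.Ir0
        h.Ir w
    · intro w _
      have e : (T2 w).image (fun t => t) = T2 w := image_id
      rw [e]
      exact tgt_card h.pr h.odd h.inj h.ok h.ok' h.ee h.adm h.adm' I X o o' h.Q w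
    · intro w _
      have e : (T2 w).image (fun t => t) = T2 w := image_id
      rw [e]
      refine le_trans ?_ hL
      have h1 : PPs P (T2 w) B B' ≤ C * I.card * E :=
        (PPs_le (fun t _ => hE t)).trans (Nat.mul_le_mul_right _
          (tgt_card h.pr h.odd h.inj h.ok h.ok' h.ee h.adm h.adm' I X o o' h.Q w))
      have h2 : (PPs P (T2 w) B B' : ℝ) ≤ ((C * I.card * E : ℕ) : ℝ) := by exact_mod_cast h1
      have hApos : 0 ≤ P.A P.h := by
        unfold Pr.A
        exact Finset.prod_nonneg (fun _ _ => by positivity)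
      have hpc : 0 ≤ P.pc P.h := by
        rcases P.h with _ | r
        · exact zero_le_one
        · simp only [Pr.pc]; positivity
      gcongr
  -- many labels with the same value
  have hrk0 : p f ^ S.e f ∣ M := (pow_dvd_NN p S.e f).trans h.Q
  set Tv := (range n1).filter (fun t => p f ^ S.e f ∣ t) with hTv
  have hes : PrG Mk K (fun w => ∃ t ∈ Tv, ∃ T ⊆ I, m1 * m2 < T.card ∧ Set.InjOn o T ∧
        ∀ g ∈ T, LHit h.pr h.inj S S' X o o' Y Y' {t} {0} w g)
      (n1 * ((((I.card * (Y.card * Y'.card)) *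
        (S'.F * NN p S'.e / (S.F * p f ^ S'.e f) + 1) : ℕ) : ℝ) * QA ^ m1 +
      ((I.image o').card * (Y'.image (fun y => y f)).card : ℕ) *
        ((I.card * (Y.image (fun y => y f)).card : ℕ) * QB ^ m2))) := by
    have h1 : ∀ t ∈ Tv, PrG Mk K (fun w => ∃ T ⊆ I, m1 * m2 < T.card ∧ Set.InjOn o T ∧
        ∀ g ∈ T, LHit h.pr h.inj S S' X o o' Y Y' {t} {0} w g)
        ((((I.card * (Y.card * Y'.card)) *
        (S'.F * NN p S'.e / (S.F * p f ^ S'.e f) + 1) : ℕ) : ℝ) * QA ^ m1 +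
      ((I.image o').card * (Y'.image (fun y => y f)).card : ℕ) *
        ((I.card * (Y.image (fun y => y f)).card : ℕ) * QB ^ m2)) := by
      intro t ht
      have h2 := est5 h.pr h.inj h.ok h.ok' h.dj hMk f h.rank (by rw [h.ee]) K I X o o' Y Y'
        {t} {0} (by
          intro u hu
          rw [mem_singleton] at hu
          rw [hu]
          exact (mem_filter.1 ht).2) (by
          intro u hu
          rw [mem_singleton] at hu
          rw [hu]
          exact dvd_zero _) h.keys h.keys' QA QB hQA0 hQB0 (by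
          rw [card_singleton, card_singleton, mul_one, mul_one]
          exact hQA) hQB m1 m2
      rw [card_singleton, card_singleton, mul_one, mul_one] at h2
      exact prG_of_prLe h2
    refine PrG_mono (fun _ _ hw => hw) ?_ (PrG_exists Tv h1)
    rw [sum_const, nsmul_eq_mul]
    have h3 : (Tv.card : ℝ) ≤ n1 := by
      have := card_filter_le (range n1) (fun t => p f ^ S.e f ∣ t)
      rw [card_range] at this
      exact_mod_cast this
    exact mul_le_mul_of_nonneg_right h3 (by positivity)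
  refine PrG_mono ?_ ?_ (PrG_or hes hst)
  · rintro r _ ⟨H, hHI, hHc, hinjo, hhit⟩
    choose! y hy y' hy' t ht hHt using hhit
    have hdv : ∀ g ∈ H, M ∣ t g := fun g hg => HitT_dvd h.pok (hHt g hg)
    by_cases hbig : ∃ b ∈ H.image t, m1 * m2 < (H.filter (fun g => t g = b)).card
    · left
      obtain ⟨b, hb, hbc⟩ := hbig
      obtain ⟨g0, hg0, rfl⟩ := mem_image.1 hb
      refine ⟨t g0, ?_, H.filter (fun g => t g = t g0), ?_, hbc, ?_, ?_⟩
      · rw [hTv, mem_filter, mem_range]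
        refine ⟨?_, hrk0.trans (hdv g0 hg0)⟩
        have h1 := hn1 g0 (hHI hg0)
        have h2 := ht g0 hg0
        omega
      · exact (filter_subset _ _).trans hHI
      · intro a ha b hb hab
        exact hinjo (mem_filter.1 ha).1 (mem_filter.1 hb).1 hab
      · intro g hg
        obtain ⟨hg1, hg2⟩ := mem_filter.1 hg
        refine ⟨y g, hy g hg1, y' g, hy' g hg1, t g0, mem_singleton_self _, 0,
          mem_singleton_self _, ?_⟩
        rw [add_zero, ← hg2]
        exact ht g hg1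
    · right
      push Not at hbig
      refine ⟨H.image t, ?_, ?_, ?_⟩
      · intro b hb
        obtain ⟨g, hg, rfl⟩ := mem_image.1 hb
        exact mem_tgt h.pr h.inj (hHI hg) (hy g hg) (hy' g hg) (ht g hg) (hdv g hg)
      · rw [one_mul]
        by_contra hlt
        rw [not_le] at hlt
        have h1 : H.card ≤ (H.image t).card * (m1 * m2) := by
          rw [card_eq_sum_card_image t H]
          exact sum_le_card_nsmul _ _ _ (fun b hb => hbig b hb)
        have h2 : (H.image t).card * (m1 * m2) ≤ N * (m1 * m2) :=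
          Nat.mul_le_mul_right _ hlt.le
        have h3 : N * (m1 * m2) = m1 * m2 * N := mul_comm _ _
        omega
      · intro b hb
        obtain ⟨g, hg, rfl⟩ := mem_image.1 hb
        exact hHt g hg
  · linarith

open Classical in
/-- all labels: either many with constant outer keys or many with pairwise different keys `o` -/
theorem out_all {K : Finset κ} {I : Finset γ} {o o' : γ → ω} (hit : (κ → ℕ) → γ → Prop)
    {Co Nd Nc : ℕ} (hoo : ∀ a, ((I.filter (fun g => o g = a)).image o').card ≤ Co)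
    {εd εc : ℝ} (hεc : 0 ≤ εc)
    (hd : PrG Mk K (fun w => ∃ H ⊆ I, Nd < H.card ∧ Set.InjOn o H ∧ ∀ g ∈ H, hit w g) εd)
    (hc : ∀ q ∈ I.image (fun g => (o g, o' g)), PrG Mk K (fun w => ∃ H ⊆ I, Nc < H.card ∧
      (∀ g ∈ H, o g = q.1 ∧ o' g = q.2) ∧ ∀ g ∈ H, hit w g) εc)
    {np : ℕ} (hnp : (I.image (fun g => (o g, o' g))).card ≤ np) :
    PrG Mk K (fun w => ∃ H ⊆ I, Nd * (Co * Nc) < H.card ∧ ∀ g ∈ H, hit w g)
      (εd + np * εc) := by
  have hc' := PrG_exists (I.image (fun g => (o g, o' g))) hc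
  rw [sum_const, nsmul_eq_mul] at hc'
  refine PrG_mono ?_ ?_ (PrG_or hd hc')
  · rintro r _ ⟨H, hHI, hHc, hhit⟩
    by_cases hbig : ∃ q ∈ H.image (fun g => (o g, o' g)),
        Nc < (H.filter (fun g => (o g, o' g) = q)).card
    · right
      obtain ⟨q, hq, hqc⟩ := hbig
      refine ⟨q, image_subset_image hHI hq, H.filter (fun g => (o g, o' g) = q),
        (filter_subset _ _).trans hHI, hqc, ?_, ?_⟩
      · intro g hg
        have := (mem_filter.1 hg).2
        exact ⟨congrArg Prod.fst this, congrArg Prod.snd this⟩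
      · intro g hg
        exact hhit g (mem_filter.1 hg).1
    · left
      push Not at hbig
      have h1 : H.card ≤ (H.image (fun g => (o g, o' g))).card * Nc := by
        rw [card_eq_sum_card_image (fun g => (o g, o' g)) H]
        exact sum_le_card_nsmul _ _ _ (fun q hq => hbig q hq)
      have h2 : (H.image (fun g => (o g, o' g))).card ≤ (H.image o).card * Co := by
        have e : (H.image (fun g => (o g, o' g))).card =
            ∑ a ∈ H.image o, ((H.image (fun g => (o g, o' g))).filter (fun q => q.1 = a)).card := by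
          refine card_eq_sum_card_fiberwise (fun q hq => ?_)
          obtain ⟨g, hg, rfl⟩ := mem_image.1 (mem_coe.1 hq)
          exact mem_coe.2 (mem_image_of_mem o hg)
        rw [e]
        refine sum_le_card_nsmul _ _ _ (fun a _ => ?_)
        refine le_trans (card_le_card_of_injOn (fun q => q.2) ?_ ?_) (hoo a)
        · intro q hq
          obtain ⟨hq1, hq2⟩ := mem_filter.1 (mem_coe.1 hq)
          obtain ⟨g, hg, rfl⟩ := mem_image.1 hq1
          exact mem_coe.2 (mem_image.2 ⟨g, mem_filter.2 ⟨hHI hg, hq2⟩, rfl⟩)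
        · intro q hq q' hq' he
          exact Prod.ext ((mem_filter.1 (mem_coe.1 hq)).2.trans
            (mem_filter.1 (mem_coe.1 hq')).2.symm) he
      have h3 : Nd < (H.image o).card := by
        by_contra hlt
        rw [not_lt] at hlt
        have h4 : H.card ≤ (H.image o).card * Co * Nc := h1.trans (Nat.mul_le_mul_right _ h2)
        have h5 : (H.image o).card * Co * Nc ≤ Nd * (Co * Nc) := by
          rw [mul_assoc]
          exact Nat.mul_le_mul_right _ hlt
        omega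
      obtain ⟨T1, hT1, hc1, hi1⟩ := exists_inj_subset H o Nd h3
      exact ⟨T1, hT1.trans hHI, by omega, hi1, fun g hg => hhit g (hT1 hg)⟩
  · have h1 : ((I.image (fun g => (o g, o' g))).card : ℝ) ≤ np := by exact_mod_cast hnp
    have h2 := mul_le_mul_of_nonneg_right h1 hεc
    linarith

end Out

end Pool.Agent.Helper36.T5
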